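import Mathlib
import Pool.Agent.Helper94.VQ.Block

/-!
# Block A1 of the balanced product-quotient theorem (helper70/helper52): pigeonhole
-/

set_option autoImplicit false

namespace BQ

open VC VQ Function

namespace A1

theorem swap_perm {k X Λ : Type*} [Field k] {n : ℕ} (c : Fin n → Λ) (Θ : (Fin n → X) → k)
    (hswap : ∀ i j, i ≠ j → c i = c j → ∀ p, Θ (fun l => p (Equiv.swap i j l)) = - Θ p)
    (l : Λ) (J : Finset (Fin n)) (hJ : ∀ i ∈ J, c i = l) (τ : Equiv.Perm J) :
    ∀ p : Fin n → X, Θ (fun i => p (Equiv.Perm.ofSubtype τ i)) =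
      (((Equiv.Perm.sign τ : ℤˣ) : ℤ) : k) * Θ p := by
  classical
  induction τ using Equiv.Perm.swap_induction_on with
  | one =>
    intro p
    simp
  | swap_mul f x y hxy ih =>
    intro p
    have e1 : (fun i => p (Equiv.Perm.ofSubtype (Equiv.swap x y * f) i)) =
        (fun i => (fun j => p (Equiv.swap (x : Fin n) (y : Fin n) j))
          (Equiv.Perm.ofSubtype f i)) := by
      funext i
      rw [map_mul, Equiv.Perm.mul_apply, Equiv.Perm.ofSubtype_swap_eq]
    rw [e1, ih (fun j => p (Equiv.swap (x : Fin n) (y : Fin n) j)),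
      hswap x.1 y.1 (fun h => hxy (Subtype.ext h)) ((hJ _ x.2).trans (hJ _ y.2).symm),
      Equiv.Perm.sign_mul, Equiv.Perm.sign_swap hxy]
    push_cast
    ring

end A1

theorem vanish_of_blocks {k X₁ X₂ Λ : Type*} [Field k] [CharZero k] [Fintype Λ] {n : ℕ}
    (M₁ M₂ : Λ → ℕ) (hn : ∑ l, M₁ l * M₂ l < n) (c : Fin n → Λ) (Θ : (Fin n → X₁ × X₂) → k)
    (hswap : ∀ i j, i ≠ j → c i = c j → ∀ p, Θ (fun l => p (Equiv.swap i j l)) = - Θ p)
    (hL : ∀ (l : Λ) (J : Finset (Fin n)), (∀ i ∈ J, c i = l) → J.card = M₁ l + 1 →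
      ∀ p : Fin n → X₁ × X₂, ∑ τ ∈ permOn J, Θ (fun i => ((p (τ i)).1, (p i).2)) = 0)
    (hR : ∀ (l : Λ) (J : Finset (Fin n)), (∀ i ∈ J, c i = l) → J.card = M₂ l + 1 →
      ∀ p : Fin n → X₁ × X₂, ∑ τ ∈ permOn J, Θ (fun i => ((p i).1, (p (τ i)).2)) = 0)
    (p : Fin n → X₁ × X₂) : Θ p = 0 := by
  classical
  -- pigeonhole
  obtain ⟨l, hl⟩ : ∃ l, M₁ l * M₂ l < (Finset.univ.filter (fun i => c i = l)).card := by
    by_contra hne
    push Not at hne
    have h1 : (Finset.univ : Finset (Fin n)).card =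
        ∑ l, (Finset.univ.filter (fun i => c i = l)).card :=
      Finset.card_eq_sum_card_fiberwise (fun i _ => Finset.mem_univ _)
    rw [Finset.card_univ, Fintype.card_fin] at h1
    have h2 : ∑ l, (Finset.univ.filter (fun i => c i = l)).card ≤ ∑ l, M₁ l * M₂ l :=
      Finset.sum_le_sum (fun l _ => hne l)
    omega
  set J : Finset (Fin n) := Finset.univ.filter (fun i => c i = l) with hJdef
  have hJ : ∀ i ∈ J, c i = l := by
    intro i hi
    simpa [hJdef] using hi
  have hsub : ∀ J' : Finset J, ∀ i ∈ J'.map (Embedding.subtype _), c i = l := by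
    intro J' i hi
    rw [Finset.mem_map] at hi
    obtain ⟨j, _, rfl⟩ := hi
    exact hJ _ j.2
  let Ψ : (J → X₁) → (J → X₂) → k := fun x y =>
    Θ (fun i => if h : i ∈ J then (x ⟨i, h⟩, y ⟨i, h⟩) else p i)
  have key := abs_block Ψ (M₁ l) (M₂ l) (by simpa using hl) (by
    intro J' hJ' x y
    have h := hL l (J'.map (Embedding.subtype _)) (hsub J') (by rw [Finset.card_map, hJ'])
      (fun i => if h : i ∈ J then (x ⟨i, h⟩, y ⟨i, h⟩) else p i)
    rw [sum_permOn_map] at h
    rw [← h]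
    apply Finset.sum_congr rfl
    intro τ _
    simp only [Ψ]
    congr 1
    funext i
    by_cases hi : i ∈ J
    · rw [dif_pos hi, Equiv.Perm.ofSubtype_apply_of_mem τ hi, dif_pos (τ ⟨i, hi⟩).2, dif_pos hi]
    · rw [dif_neg hi, Equiv.Perm.ofSubtype_apply_of_not_mem τ hi, dif_neg hi]) (by
    intro J' hJ' x y
    have h := hR l (J'.map (Embedding.subtype _)) (hsub J') (by rw [Finset.card_map, hJ'])
      (fun i => if h : i ∈ J then (x ⟨i, h⟩, y ⟨i, h⟩) else p i)
    rw [sum_permOn_map] at h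
    rw [← h]
    apply Finset.sum_congr rfl
    intro τ _
    simp only [Ψ]
    congr 1
    funext i
    by_cases hi : i ∈ J
    · rw [dif_pos hi, Equiv.Perm.ofSubtype_apply_of_mem τ hi, dif_pos (τ ⟨i, hi⟩).2, dif_pos hi]
    · rw [dif_neg hi, Equiv.Perm.ofSubtype_apply_of_not_mem τ hi, dif_neg hi])
    (fun j => (p j.1).1) (fun j => (p j.1).2)
  have e : ∀ τ : Equiv.Perm J, ((Equiv.Perm.sign τ : ℤˣ) : ℤ) •
      Ψ (fun i => (p (τ i).1).1) (fun i => (p (τ i).1).2) = Θ p := by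
    intro τ
    have e1 : Ψ (fun i => (p (τ i).1).1) (fun i => (p (τ i).1).2) =
        Θ (fun i => p (Equiv.Perm.ofSubtype τ i)) := by
      simp only [Ψ]
      congr 1
      funext i
      by_cases hi : i ∈ J
      · rw [dif_pos hi, Equiv.Perm.ofSubtype_apply_of_mem τ hi]
      · rw [dif_neg hi, Equiv.Perm.ofSubtype_apply_of_not_mem τ hi]
    rw [e1, A1.swap_perm c Θ hswap l J hJ τ p, zsmul_eq_mul, ← mul_assoc, ← Int.cast_mul,
      ← Units.val_mul, Int.units_mul_self]
    simp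
  rw [Finset.sum_congr rfl (fun τ _ => e τ), Finset.sum_const, nsmul_eq_mul] at key
  rcases mul_eq_zero.mp key with h | h
  · exfalso
    have h3 : (Finset.univ : Finset (Equiv.Perm J)).card ≠ 0 := by
      rw [Finset.card_univ]
      exact Fintype.card_ne_zero
    exact h3 (by exact_mod_cast h)
  · exact h

end BQ
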